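import Pool.Agent.Y16.RA.Fam

/-!
# Locally positive Rains functions with every negative minimum

The definitions are those of the starting module of helper754.
-/

set_option autoImplicit false

namespace Pool.Agent.Results.MP_4046ef_mp.AllMinima

open Pool.Agent.H754R3.Rains

/-- **Local positivity says nothing about the global minimum.** For every `m < 0` and every real `t`
there is a non-chiral datum with gauge group `SU(2)`, without gauge singlets, whose Rains function
is strictly positive on a punctured neighbourhood of the origin and has minimum exactly `m`, and for
which `Tr R = t`. -/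
theorem result (m t : ℝ) (hm : m < 0) :
    ∃ D : Datum, D.NonChiral ∧ D.NoSinglets ∧
      (∃ ε : ℝ, 0 < ε ∧ ∀ x : ℝ, 0 < |x| → |x| < ε → 0 < D.rains x) ∧
      IsLeast (Set.range D.rains) m ∧ D.trR = t :=
  Pool.Agent.Y16.RA.prescribed m t hm.le

end Pool.Agent.Results.MP_4046ef_mp.AllMinima
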